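import Pool.Agent.EI28X.Planes
import Pool.Agent.H32Iso.Triple

set_option autoImplicit false

namespace Pool.Agent.Results.MP_82f0bc_co.ExactExcess

open Pool.Agent.H32Iso Pool.Agent.EI28X

/-- Exact values of `v(n, 2 n + k, F)` for infinitely many `n`. -/
theorem result :
    (∀ k n : ℕ, 24 ≤ k → 1 < n → n % 2 ^ (k / 2 + 4) = 1 →
      IsGreatest (sizes ℝ n (2 * n + k)) (k + 2)) ∧
    (∀ k n : ℕ, 24 ≤ k → Even k → 2 < n → n % 2 ^ (k / 2 + 5) = 2 →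
      IsGreatest (sizes ℝ n (2 * n + k)) (k + 3)) ∧
    (∀ k n : ℕ, 12 ≤ k → 1 < n → n % 2 ^ (k + 4) = 1 →
      IsGreatest (sizes ℂ n (2 * n + k)) (2 * k + 3)) ∧
    (∀ n : ℕ, 3 ≤ n → IsGreatest (sizes ℝ n (2 * n + 1)) 3) := by
  refine ⟨fun k n hk hn hm => real_exact hk hm hn, fun k n hk he hn hm => planes_exact hk he hm hn,
    fun k n hk hn hm => complex_exact hk hm hn, fun n hn => ⟨?_, ?_⟩⟩
  · obtain ⟨V, h⟩ := exists_triple n (by omega)
    exact ⟨_, V, h⟩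
  · rintro p ⟨lam, V, h⟩
    exact upper hn h

end Pool.Agent.Results.MP_82f0bc_co.ExactExcess
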