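import Pool.Agent.EI97.GerzonEq
import Pool.Agent.EI28H.Fifteen
import Pool.Agent.H14SIC.RealForm
import Pool.Agent.H94EI.Singer

set_option autoImplicit false

namespace Pool.Agent.Results.MP_82f0bc_co.GerzonBound

open Pool.Agent.H32Iso Pool.Agent.H94EI Pool.Agent.H14SIC

theorem gerzon_real {n r p : ℕ} (hn : 1 ≤ n) (hp : p ∈ sizes ℝ n r) :
    (p : ℝ) ≤ r * (r + 2 - n) / (2 * n) := by
  have h := Pool.Agent.EI97.gerzon_all hn hp
  rw [Module.finrank_self] at h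
  simpa using h

theorem gerzon_complex {n r p : ℕ} (hn : 1 ≤ n) (hp : p ∈ sizes ℂ n r) :
    (p : ℝ) ≤ r * (2 * r + 2 - 2 * n) / (2 * n) := by
  have h := Pool.Agent.EI97.gerzon_all hn hp
  rw [Complex.finrank_real_complex] at h
  exact_mod_cast h

theorem gerzon_quaternion {n r p : ℕ} (hn : 1 ≤ n) (hp : p ∈ sizes (Quaternion ℝ) n r) :
    (p : ℝ) ≤ r * (4 * r + 2 - 4 * n) / (2 * n) := by
  have h := Pool.Agent.EI97.gerzon_all hn hp
  rw [Quaternion.finrank_eq_four] at h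
  exact_mod_cast h

theorem eq_real {n r p : ℕ} {lam : ℝ} {V : Fin p → Submodule ℝ (Sp ℝ r)} (hn : 1 ≤ n)
    (hp : 2 ≤ p) (h : EquiIsoclinic ℝ n r p lam V)
    (he : (p : ℝ) = r * (r + 2 - n) / (2 * n)) : lam = n / (r + 2) := by
  have h1 := Pool.Agent.EI97.lam_eq_of_gerzon h hn hp
  rw [Module.finrank_self] at h1
  simpa using h1 (by simpa using he)

theorem eq_complex {n r p : ℕ} {lam : ℝ} {V : Fin p → Submodule ℂ (Sp ℂ r)} (hn : 1 ≤ n)
    (hp : 2 ≤ p) (h : EquiIsoclinic ℂ n r p lam V)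
    (he : (p : ℝ) = r * (2 * r + 2 - 2 * n) / (2 * n)) : lam = 2 * n / (2 * r + 2) := by
  have h1 := Pool.Agent.EI97.lam_eq_of_gerzon h hn hp
  rw [Complex.finrank_real_complex] at h1
  exact_mod_cast h1 (by exact_mod_cast he)

theorem eq_quaternion {n r p : ℕ} {lam : ℝ} {V : Fin p → Submodule (Quaternion ℝ)
    (Sp (Quaternion ℝ) r)} (hn : 1 ≤ n) (hp : 2 ≤ p)
    (h : EquiIsoclinic (Quaternion ℝ) n r p lam V)
    (he : (p : ℝ) = r * (4 * r + 2 - 4 * n) / (2 * n)) : lam = 4 * n / (4 * r + 2) := by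
  have h1 := Pool.Agent.EI97.lam_eq_of_gerzon h hn hp
  rw [Quaternion.finrank_eq_four] at h1
  exact_mod_cast h1 (by exact_mod_cast he)

/-- The largest number of equi-isoclinic planes of `ℝ ^ r` that together span `ℝ ^ r`. -/
noncomputable def v2 (r : ℕ) : ℕ := sSup (sizes ℝ 2 r)

theorem four_mul_le {r p : ℕ} (hp : p ∈ sizes ℝ 2 r) : 4 * p ≤ r ^ 2 := by
  have h := gerzon_real (by norm_num) hp
  have h2 : (4 : ℝ) * p ≤ (r : ℝ) ^ 2 := by
    push_cast at h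
    linarith
  exact_mod_cast h2

theorem planes_upper {r p : ℕ} (hp : p ∈ sizes ℝ 2 r) : p ≤ r ^ 2 / 4 := by
  have := four_mul_le hp
  omega

theorem planes_exact {d : ℕ} (h : d ^ 2 ∈ sizes ℝ 2 (2 * d)) :
    IsGreatest (sizes ℝ 2 (2 * d)) (d ^ 2) := by
  refine ⟨h, fun p hp => ?_⟩
  have h1 := four_mul_le hp
  have h2 : (2 * d) ^ 2 = 4 * d ^ 2 := by ring
  omega

theorem bdd (r : ℕ) : BddAbove (sizes ℝ 2 r) :=
  ⟨r ^ 2 / 4, fun _ hp => planes_upper hp⟩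

theorem v2_le (r : ℕ) : v2 r ≤ r ^ 2 / 4 := by
  unfold v2
  rcases Set.eq_empty_or_nonempty (sizes ℝ 2 r) with h | h
  · rw [h]; simp
  · exact csSup_le h fun p hp => planes_upper hp

theorem ratio_le (r : ℕ) (hr : 4 ≤ r) : (v2 r : ℝ) / (r : ℝ) ^ 2 ≤ 1 / 4 := by
  have h1 : 4 * v2 r ≤ r ^ 2 := by
    have := v2_le r
    omega
  have h2 : (4 : ℝ) * v2 r ≤ (r : ℝ) ^ 2 := by exact_mod_cast h1
  have h3 : (0 : ℝ) < (r : ℝ) ^ 2 := by
    have : (0 : ℝ) < r := by exact_mod_cast (by omega : 0 < r)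
    positivity
  rw [div_le_div_iff₀ h3 (by norm_num)]
  linarith

theorem limsup_eq :
    Filter.limsup (fun r : ℕ => (v2 r : ℝ) / (r : ℝ) ^ 2) Filter.atTop = 1 / 4 := by
  have hev : ∀ᶠ r : ℕ in Filter.atTop, (v2 r : ℝ) / (r : ℝ) ^ 2 ≤ 1 / 4 :=
    Filter.eventually_atTop.mpr ⟨4, fun r hr => ratio_le r hr⟩
  have hbd : Filter.IsBoundedUnder (· ≤ ·) Filter.atTop
      (fun r : ℕ => (v2 r : ℝ) / (r : ℝ) ^ 2) := ⟨1 / 4, Filter.eventually_map.mpr hev⟩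
  have hcob : Filter.IsCoboundedUnder (· ≤ ·) Filter.atTop
      (fun r : ℕ => (v2 r : ℝ) / (r : ℝ) ^ 2) :=
    Filter.IsCoboundedUnder.of_frequently_ge (a := (0 : ℝ))
      (Filter.Frequently.of_forall fun r => by positivity)
  apply le_antisymm
  · exact Filter.limsup_le_of_le hcob hev
  · refine le_of_forall_pos_le_add fun ε hε => ?_
    have hfr : ∃ᶠ r : ℕ in Filter.atTop, 1 / 4 - ε ≤ (v2 r : ℝ) / (r : ℝ) ^ 2 := by
      rw [Filter.frequently_atTop]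
      intro r₀
      obtain ⟨r, hr, p, hp, h⟩ := planes_lower ε hε (max r₀ 4)
      have hr4 : 4 ≤ r := le_trans (le_max_right _ _) hr
      refine ⟨r, le_trans (le_max_left _ _) hr, ?_⟩
      have h1 : (p : ℝ) ≤ v2 r := by exact_mod_cast le_csSup (bdd r) hp
      have h3 : (0 : ℝ) < (r : ℝ) ^ 2 := by
        have : (0 : ℝ) < r := by exact_mod_cast (by omega : 0 < r)
        positivity
      rw [le_div_iff₀ h3]
      linarith
    have := Filter.le_limsup_of_frequently_le hfr hbd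
    linarith

theorem result :
    (∀ n r p : ℕ, 1 ≤ n → p ∈ sizes ℝ n r → (p : ℝ) ≤ r * (r + 2 - n) / (2 * n)) ∧
    (∀ n r p : ℕ, 1 ≤ n → p ∈ sizes ℂ n r → (p : ℝ) ≤ r * (2 * r + 2 - 2 * n) / (2 * n)) ∧
    (∀ n r p : ℕ, 1 ≤ n → p ∈ sizes (Quaternion ℝ) n r →
      (p : ℝ) ≤ r * (4 * r + 2 - 4 * n) / (2 * n)) ∧
    (∀ (n r p : ℕ) (lam : ℝ) (V : Fin p → Submodule ℝ (Sp ℝ r)), 1 ≤ n → 2 ≤ p →
      EquiIsoclinic ℝ n r p lam V → (p : ℝ) = r * (r + 2 - n) / (2 * n) → lam = n / (r + 2)) ∧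
    (∀ (n r p : ℕ) (lam : ℝ) (V : Fin p → Submodule ℂ (Sp ℂ r)), 1 ≤ n → 2 ≤ p →
      EquiIsoclinic ℂ n r p lam V → (p : ℝ) = r * (2 * r + 2 - 2 * n) / (2 * n) →
      lam = 2 * n / (2 * r + 2)) ∧
    (∀ (n r p : ℕ) (lam : ℝ) (V : Fin p → Submodule (Quaternion ℝ) (Sp (Quaternion ℝ) r)),
      1 ≤ n → 2 ≤ p → EquiIsoclinic (Quaternion ℝ) n r p lam V →
      (p : ℝ) = r * (4 * r + 2 - 4 * n) / (2 * n) → lam = 4 * n / (4 * r + 2)) ∧
    (∀ d : ℕ, 2 ≤ d → d ^ 2 ∈ sizes ℂ 1 d → IsGreatest (sizes ℝ 2 (2 * d)) (d ^ 2)) ∧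
    (∀ d ∈ ({2, 3, 4, 7, 8, 19} : Set ℕ), IsGreatest (sizes ℝ 2 (2 * d)) (d ^ 2)) ∧
    IsGreatest (sizes ℂ 2 6) 15 ∧
    IsGreatest (sizes ℝ 4 12) 15 ∧
    (∀ q : ℕ, IsPrimePow q → q ^ 2 + q + 1 ∈ sizes ℝ 2 (2 * (q + 1))) ∧
    Filter.limsup (fun r : ℕ => (v2 r : ℝ) / (r : ℝ) ^ 2) Filter.atTop = 1 / 4 := by
  refine ⟨fun n r p hn hp => gerzon_real hn hp, fun n r p hn hp => gerzon_complex hn hp,
    fun n r p hn hp => gerzon_quaternion hn hp,
    fun n r p lam V hn hp h he => eq_real hn hp h he,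
    fun n r p lam V hn hp h he => eq_complex hn hp h he,
    fun n r p lam V hn hp h he => eq_quaternion hn hp h he, fun d hd h => ?_, fun d hd => ?_,
    ⟨Pool.Agent.EI28H.fifteenC, fun p hp => ?_⟩, ⟨Pool.Agent.EI28H.fifteenR, fun p hp => ?_⟩,
    fun q hq => singer_real q hq, limsup_eq⟩
  · exact planes_exact (realify 1 d h)
  · simp only [Set.mem_insert_iff, Set.mem_singleton_iff] at hd
    rcases hd with rfl | rfl | rfl | rfl | rfl | rfl
    · exact planes_exact sicR2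
    · exact planes_exact sicR3
    · exact planes_exact sicR4
    · exact planes_exact sicR7
    · exact planes_exact sicR8
    · exact planes_exact sicR19
  · have h := gerzon_complex (by norm_num) hp
    norm_num at h
    exact h
  · have h := gerzon_real (by norm_num) hp
    norm_num at h
    exact h

end Pool.Agent.Results.MP_82f0bc_co.GerzonBound
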