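import Pool.Agent.EI28X.Assembly
import Pool.Agent.EI28X.Three
import Pool.Agent.EI28X.Typical
import Pool.Agent.H32Iso.Period

set_option autoImplicit false

namespace Pool.Agent.Results.MP_82f0bc_co.TypicalValue

open Pool.Agent.H32Iso Pool.Agent.EI28X

/-- `m (4 l + 7) (2 l + 5) / 2` with `l = ⌊log₂ m⌋`. -/
noncomputable def L (m : ℕ) : ℝ :=
  m * ((4 * (Nat.log 2 m : ℝ) + 7) * (2 * (Nat.log 2 m : ℝ) + 5)) / 2

/-- The statement for the excess `k` and the field of real dimension `c`, where `s n` is the set of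
all `p` for which `p` equi-isoclinic `n`-subspaces span the space of dimension `2 n + k`. -/
def Typical (c k : ℕ) (s : ℕ → Set ℕ) : Prop :=
  (∃ D, 1 ≤ D ∧ ∃ N, ∀ n, N ≤ n → s (n + D) = s n) ∧
  (∀ n p, k ≤ n → 4 ≤ p → p + 4 * Nat.log 2 (Nat.log 2 k) + 18 ≤ 2 * Nat.log 2 k → p ∈ s n) ∧
  (∀ n e p, L (c * k) < 2 ^ e → (c * n % 2 ^ e = 0 ∨ L (c * k) < (c * n % 2 ^ e : ℕ)) → p ∈ s n →
    p ≤ 2 * e + 2) ∧
  ∃ m K : ℕ, 1 ≤ m ∧ K * Nat.log 2 k ≤ m ∧ ∀ n p, p ∈ s n →
    2 * Nat.log 2 k + 6 * Nat.log 2 (Nat.log 2 k) + 28 < p → n % m < K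

theorem typical {F : Type} [NormedDivisionRing F] [InnerProductSpace ℝ F] [IsScalarTower ℝ F F]
    [SMulCommClass ℝ F F] [FiniteDimensional ℝ F] {c s : ℕ} (hF : Module.finrank ℝ F = c)
    (hc : c = 2 ^ s) (hs : s ≤ 2) {k : ℕ} (hk : 1 ≤ k) :
    Typical c k (fun n => sizes F n (2 * n + k)) := by
  refine ⟨eventually_periodic F k hk, fun n p hn hp h => ?_, fun n e p he hn hp => ?_, ?_⟩
  · exact assemble_log F hp (by norm_num) (exists_one F p) (exists_three F p hp) h hn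
  · by_contra hcon
    have h := sizes_mod hk (by rw [hF]; exact he) hp (by omega)
    rw [hF] at h
    rcases hn with h0 | h0
    · exact absurd h.1 (by omega)
    · exact absurd h.2 (not_le.mpr h0)
  · rcases Nat.lt_or_ge k 2 with h1 | h1
    · have hk1 : k = 1 := by omega
      subst hk1
      exact ⟨1, 1, le_rfl, by simp, fun n p _ _ => Nat.mod_lt _ one_pos⟩
    · exact typical_upper (hF.trans hc) hs h1

theorem result (k : ℕ) (hk : 1 ≤ k) :
    Typical 1 k (fun n => sizes ℝ n (2 * n + k)) ∧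
    Typical 2 k (fun n => sizes ℂ n (2 * n + k)) ∧
    Typical 4 k (fun n => sizes (Quaternion ℝ) n (2 * n + k)) :=
  ⟨typical (s := 0) (Module.finrank_self ℝ) (by norm_num) (by norm_num) hk,
    typical (s := 1) Complex.finrank_real_complex (by norm_num) (by norm_num) hk,
    typical (s := 2) Quaternion.finrank_eq_four (by norm_num) (by norm_num) hk⟩

end Pool.Agent.Results.MP_82f0bc_co.TypicalValue
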