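import Pool.Agent.EI28U.Lim
import Pool.Agent.EI28U.Lower

set_option autoImplicit false

namespace Pool.Agent.Results.MP_82f0bc_co.UniformBound

open Pool.Agent.H32Iso Pool.Agent.EI28U

/-- `m (4 l + 7) (2 l + 5) / 2` with `l = ⌊log₂ m⌋`. -/
noncomputable def L (m : ℕ) : ℝ :=
  m * ((4 * (Nat.log 2 m : ℝ) + 7) * (2 * (Nat.log 2 m : ℝ) + 5)) / 2

/-- The largest number of equi-isoclinic `n`-subspaces that together span `ℝ ^ (2 n + k)`, over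
all `n ≥ 2`. -/
noncomputable def w (k : ℕ) : ℕ := sSup {p | ∃ n, 2 ≤ n ∧ p ∈ sizes ℝ n (2 * n + k)}

theorem result :
    (∀ m n k p : ℕ, 1 ≤ m → m ≤ n → 1 ≤ k → p ∈ sizes ℝ n (2 * n + k) →
      (p : ℝ) ≤ max ((2 * (m : ℝ) + k) * (m + k + 2) / (2 * m)) (L k + m + 2 * k + 3)) ∧
    (∀ m n k p : ℕ, 1 ≤ m → m ≤ n → 1 ≤ k → p ∈ sizes ℂ n (2 * n + k) →
      (p : ℝ) ≤ max ((2 * (m : ℝ) + k) * (2 * m + 2 * k + 2) / (2 * m))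
        (L (2 * k) + 2 * m + 4 * k + 3)) ∧
    (∀ m n k p : ℕ, 1 ≤ m → m ≤ n → 1 ≤ k → p ∈ sizes (Quaternion ℝ) n (2 * n + k) →
      (p : ℝ) ≤ max ((2 * (m : ℝ) + k) * (4 * m + 4 * k + 2) / (2 * m))
        (L (4 * k) + 4 * m + 8 * k + 3)) ∧
    (∀ m n k p : ℕ, 1 ≤ m → m ≤ n → 2048 * m ^ 2 ≤ k → p ∈ sizes ℝ n (2 * n + k) →
      (p : ℝ) ≤ (2 * (m : ℝ) + k) * (m + k + 2) / (2 * m)) ∧
    (∀ m n k p : ℕ, 1 ≤ m → m ≤ n → 2048 * m ^ 2 ≤ k → p ∈ sizes ℂ n (2 * n + k) →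
      (p : ℝ) ≤ (2 * (m : ℝ) + k) * (2 * m + 2 * k + 2) / (2 * m)) ∧
    (∀ m n k p : ℕ, 1 ≤ m → m ≤ n → 2048 * m ^ 2 ≤ k →
      p ∈ sizes (Quaternion ℝ) n (2 * n + k) →
      (p : ℝ) ≤ (2 * (m : ℝ) + k) * (4 * m + 4 * k + 2) / (2 * m)) ∧
    Filter.limsup (fun k : ℕ => (w k : ℝ) / (k : ℝ) ^ 2) Filter.atTop = 1 / 4 ∧
    (∀ n k p : ℕ, 1 ≤ k → L k < n → p ∈ sizes ℝ n (2 * n + k) →
      (p : ℝ) ≤ L k + 2 * k + 3) ∧
    (∀ n k p : ℕ, 1 ≤ k → L (2 * k) < 2 * n → p ∈ sizes ℂ n (2 * n + k) →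
      (p : ℝ) ≤ L (2 * k) + 4 * k + 3) ∧
    (∀ n k p : ℕ, 1 ≤ k → L (4 * k) < 4 * n → p ∈ sizes (Quaternion ℝ) n (2 * n + k) →
      (p : ℝ) ≤ L (4 * k) + 8 * k + 3) ∧
    (∀ k j : ℕ, k + 2 ∈ sizes ℝ (1 + j * 2 ^ (k + 2)) (2 * (1 + j * 2 ^ (k + 2)) + k)) ∧
    (∀ k j : ℕ, k + 2 ∈ sizes ℂ (1 + j * 2 ^ (k + 2)) (2 * (1 + j * 2 ^ (k + 2)) + k)) ∧
    (∀ k j : ℕ, k + 2 ∈
      sizes (Quaternion ℝ) (1 + j * 2 ^ (k + 2)) (2 * (1 + j * 2 ^ (k + 2)) + k)) := by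
  refine ⟨fun _ _ _ _ h0 h1 h2 hp => real_max h0 h1 h2 hp,
    fun _ _ _ _ h0 h1 h2 hp => complex_max h0 h1 h2 hp,
    fun _ _ _ _ h0 h1 h2 hp => quaternion_max h0 h1 h2 hp,
    fun _ _ _ _ h0 h1 h2 hp => real_large h0 h1 h2 hp,
    fun _ _ _ _ h0 h1 h2 hp => complex_large h0 h1 h2 hp,
    fun _ _ _ _ h0 h1 h2 hp => quaternion_large h0 h1 h2 hp, w2_limsup,
    fun n k p hk hn hp => ?_, fun n k p hk hn hp => ?_, fun n k p hk hn hp => ?_,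
    fun k j => lower ℝ k j, fun k j => lower ℂ k j, fun k j => lower (Quaternion ℝ) k j⟩
  · have hn' : LL k < n := hn
    have h := sizes_large hk (by rw [Module.finrank_self]; simpa using hn') hp
    rw [Module.finrank_self] at h
    have h2 : (p : ℝ) ≤ LL k + 2 * k + 3 := by simpa using h
    exact h2
  · have h := sizes_large hk (by rw [Complex.finrank_real_complex]; exact_mod_cast hn) hp
    rw [Complex.finrank_real_complex] at h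
    refine h.trans (le_of_eq ?_)
    push_cast
    change L (2 * k) + 2 * (2 * k) + 3 = L (2 * k) + 4 * k + 3
    ring
  · have h := sizes_large hk (by rw [Quaternion.finrank_eq_four]; exact_mod_cast hn) hp
    rw [Quaternion.finrank_eq_four] at h
    refine h.trans (le_of_eq ?_)
    push_cast
    change L (4 * k) + 2 * (4 * k) + 3 = L (4 * k) + 8 * k + 3
    ring

end Pool.Agent.Results.MP_82f0bc_co.UniformBound
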